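import Pool.Agent.H38.CM.Uec

open Pool.Agent.H38.Uec

theorem Pool.Agent.Results.MP_c472bb_lc.Undec.result :
    ¬ ComputablePred fun L : List (List ℕ × List ℕ) =>
      UEC (fun i : Fin L.length => (L.get i).1) (fun i : Fin L.length => (L.get i).2) :=
  main
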